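import Pool.Agent.Y32.AS.Defs

/-!
# Project AS: the words `rw n` (jobs RASF, RNOT, ALL)
-/

set_option autoImplicit false

namespace Pool.Agent.Y592.AS

open Pool.Agent.Y32.AS

/-- `m` blocks beginning with the block `i`, each followed by the separator -/
def FF : ℕ → ℕ → List (Fin 17)
  | _, 0 => []
  | i, m + 1 => bl i ++ 16 :: FF (i + 1) m

theorem not16 (n : ℕ) : (16 : Fin 17) ∉ bl n := fun h => bl_ne n 16 h rfl

theorem FF_last (m : ℕ) : ∀ i, FF i (m + 1) = FF i m ++ (bl (i + m) ++ [16]) := by
  induction m with
  | zero =>
    intro i
    simp [FF]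
  | succ m ih =>
    intro i
    have h1 : FF i (m + 1 + 1) = bl i ++ 16 :: FF (i + 1) (m + 1) := rfl
    have h2 : FF i (m + 1) = bl i ++ 16 :: FF (i + 1) m := rfl
    rw [h1, ih (i + 1), h2, show i + 1 + m = i + (m + 1) by omega]
    simp

theorem rw_eq (n : ℕ) : rw n = 16 :: FF 0 (n + 1) := by
  induction n with
  | zero => rfl
  | succ n ih =>
    rw [FF_last (n + 1) 0, rw, ih]
    simp

theorem FF_len (k : ℕ) : (FF 0 k).length ≤ 5 ^ k := by
  induction k with
  | zero => simp [FF]
  | succ k ih =>
    rw [FF_last, List.length_append, List.length_append, bl_len, Nat.zero_add]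
    have h1 : 0 < 5 ^ k := by positivity
    rw [pow_succ]
    simp only [List.length_cons, List.length_nil]
    omega

/-- uniqueness of the first separator -/
theorem first_uniq {v w r r' : List (Fin 17)} (hv : (16 : Fin 17) ∉ v) (hw : (16 : Fin 17) ∉ w)
    (h : v ++ 16 :: r = w ++ 16 :: r') : v = w ∧ r = r' := by
  induction v generalizing w with
  | nil =>
    cases w with
    | nil => exact ⟨rfl, by simpa using h⟩
    | cons b w =>
      exfalso
      rw [List.nil_append, List.cons_append] at h
      have := (List.cons.inj h).1
      exact hw (by rw [this]; simp)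
  | cons a v ih =>
    cases w with
    | nil =>
      exfalso
      rw [List.nil_append, List.cons_append] at h
      have := (List.cons.inj h).1
      exact hv (by rw [this]; simp)
    | cons b w =>
      rw [List.cons_append, List.cons_append] at h
      obtain ⟨h1, h2⟩ := List.cons.inj h
      obtain ⟨h3, h4⟩ := ih (fun h => hv (by simp [h])) (fun h => hw (by simp [h])) h2
      exact ⟨by rw [h1, h3], h4⟩

/-- the places of two consecutive separators -/
theorem claim (m : ℕ) : ∀ (i : ℕ) (a v rest : List (Fin 17)), (a = [] ∨ ∃ a', a = a' ++ [16]) →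
    (16 : Fin 17) ∉ v → FF i m = a ++ (v ++ 16 :: rest) →
    ∃ k < m, a = FF i k ∧ v = bl (i + k) ∧ rest = FF (i + k + 1) (m - k - 1) := by
  induction m with
  | zero =>
    intro i a v rest _ _ h
    exfalso
    have := congrArg List.length h
    simp [FF] at this
  | succ m ih =>
    intro i a v rest ha hv h
    have h1 : FF i (m + 1) = bl i ++ 16 :: FF (i + 1) m := rfl
    rw [h1] at h
    by_cases hmem : (16 : Fin 17) ∈ a
    · obtain ⟨w0, a3, hw0, hw0'⟩ := List.eq_append_cons_of_mem hmem
      subst hw0
      rw [List.append_assoc, List.cons_append] at h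
      obtain ⟨h2, h3⟩ := first_uniq (not16 i) hw0' h
      have ha3 : a3 = [] ∨ ∃ a', a3 = a' ++ [16] := by
        rcases ha with ha | ⟨a', ha⟩
        · exact absurd (congrArg List.length ha) (by simp)
        · rcases List.eq_nil_or_concat a3 with h4 | ⟨a4, c, h4⟩
          · exact Or.inl h4
          · right
            refine ⟨a4, ?_⟩
            rw [h4] at ha ⊢
            have h5 : w0 ++ 16 :: (a4 ++ [c]) = (w0 ++ 16 :: a4) ++ [c] := by simp
            rw [List.concat_eq_append, h5] at ha
            have h6 := (List.append_inj' ha rfl).2
            rw [List.concat_eq_append, h6]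
      obtain ⟨k, hk, e1, e2, e3⟩ := ih (i + 1) a3 v rest ha3 hv h3
      refine ⟨k + 1, by omega, ?_, ?_, ?_⟩
      · show w0 ++ 16 :: a3 = bl i ++ 16 :: FF (i + 1) k
        rw [← h2, e1]
      · rw [e2]
        congr 1
        omega
      · rw [e3]
        congr 1
        · omega
        · omega
    · have ha0 : a = [] := by
        rcases ha with ha | ⟨a', ha⟩
        · exact ha
        · exact absurd (by rw [ha]; simp) hmem
      subst ha0
      rw [List.nil_append] at h
      obtain ⟨h2, h3⟩ := first_uniq (not16 i) hv h
      exact ⟨0, by omega, rfl, by rw [← h2, Nat.add_zero], by rw [← h3]; rfl⟩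

/-- the places of two consecutive separators in `rw n` -/
theorem claim_rw {n : ℕ} {a v rest : List (Fin 17)} (hv : (16 : Fin 17) ∉ v)
    (h : rw n = a ++ 16 :: (v ++ 16 :: rest)) :
    ∃ k < n + 1, a ++ [16] = 16 :: FF 0 k ∧ v = bl k ∧ rest = FF (k + 1) (n + 1 - k - 1) := by
  rw [rw_eq] at h
  cases a with
  | nil =>
    rw [List.nil_append] at h
    have h1 := (List.cons.inj h).2
    obtain ⟨k, hk, e1, e2, e3⟩ := claim (n + 1) 0 [] v rest (Or.inl rfl) hv h1
    rw [Nat.zero_add] at e2 e3
    exact ⟨k, hk, by rw [← e1]; rfl, e2, e3⟩
  | cons b a =>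
    rw [List.cons_append] at h
    obtain ⟨h0, h1⟩ := List.cons.inj h
    have h2 : FF 0 (n + 1) = (a ++ [16]) ++ (v ++ 16 :: rest) := by rw [h1]; simp
    obtain ⟨k, hk, e1, e2, e3⟩ := claim (n + 1) 0 (a ++ [16]) v rest (Or.inr ⟨a, rfl⟩) hv h2
    rw [Nat.zero_add] at e2 e3
    exact ⟨k, hk, by rw [← h0, List.cons_append, e1], e2, e3⟩

/-! ### The language -/

theorem flat_get {p : List (Fin 17)} {x : Fin 17} {q : List (Fin 17)} {r : ℕ} (hr : r < 5) :
    ((p ++ x :: q).flatMap g)[5 * p.length + r]? = (g x)[r]? := by
  induction p with
  | nil =>
    simp only [List.nil_append, List.flatMap_cons, List.length_nil, Nat.mul_zero, Nat.zero_add]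
    rw [List.getElem?_append_left (by rw [g_len]; exact hr)]
  | cons a p ih =>
    rw [List.cons_append, List.flatMap_cons, List.length_cons,
      List.getElem?_append_right (by rw [g_len]; omega), g_len,
      show 5 * (p.length + 1) + r - 5 = 5 * p.length + r by omega]
    exact ih

theorem get_rest {G rest p' β : List (Fin 17)} {y : Fin 17} (h : G <+: rest)
    (hr : rest = p' ++ y :: β) (hl : p'.length < G.length) : G[p'.length]? = some y := by
  obtain ⟨t, ht⟩ := h
  have h1 : rest[p'.length]? = some y := by
    rw [hr, List.getElem?_append_right le_rfl, Nat.sub_self]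
    rfl
  rw [← ht, List.getElem?_append_left hl] at h1
  exact h1

theorem rest_cases {i m : ℕ} {rest : List (Fin 17)} (h : rest = FF i m) :
    rest = [] ∨ (bl i ++ [16]) <+: rest := by
  cases m with
  | zero => exact Or.inl h
  | succ m =>
    right
    rw [h]
    exact ⟨FF (i + 1) m, by simp [FF]⟩

theorem t_RNOT : S_RNOT := by
  intro n hmem
  have h1 : [16, 0, 16] <+: rw n := by
    rw [rw_eq]
    exact ⟨FF 1 n, by simp [FF, bl]⟩
  have h2 : [16] <:+ rw n := by
    rw [rw_eq, FF_last]
    exact ⟨16 :: (FF 0 n ++ bl (0 + n)), by simp⟩
  rcases hmem with ((hm | hm) | hm) | hm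
  · exact hm h1
  · exact hm h2
  · obtain ⟨α, p, x, q, p', y, β, r, hz, hp, hx, hq, hr, hl, hne⟩ := hm
    have hv : (16 : Fin 17) ∉ p ++ x :: q := by
      intro h
      rw [List.mem_append, List.mem_cons] at h
      rcases h with h | h | h
      · exact hp 16 h rfl
      · exact hx h.symm
      · exact hq 16 h rfl
    obtain ⟨k, -, -, e2, e3⟩ := claim_rw (a := α) (v := p ++ x :: q) (rest := p' ++ y :: β) hv
      (by rw [hz]; simp)
    rcases rest_cases e3 with h3 | h3
    · exact absurd (congrArg List.length h3) (by simp)
    · have hlen : (bl (k + 1)).length = 5 * (p ++ x :: q).length := by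
        rw [bl_len, e2, bl_len, pow_succ]
        ring
      have hlt : p'.length < (bl (k + 1)).length := by
        rw [hlen, hl, List.length_append, List.length_cons]
        omega
      have h4 := get_rest h3 rfl (by rw [List.length_append]; omega)
      rw [List.getElem?_append_left hlt, hl, bl, ← e2, flat_get hr] at h4
      exact hne h4
  · obtain ⟨α, p, p', y, β, hz, hp, hl, hy⟩ := hm
    have hv : (16 : Fin 17) ∉ p := fun h => hp 16 h rfl
    obtain ⟨k, -, -, e2, e3⟩ := claim_rw (a := α) (v := p) (rest := p' ++ y :: β) hv
      (by rw [hz]; simp)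
    rcases rest_cases e3 with h3 | h3
    · exact absurd (congrArg List.length h3) (by simp)
    · have hlen : p'.length = (bl (k + 1)).length := by
        rw [bl_len, hl, e2, bl_len, pow_succ]
        ring
      have h4 := get_rest h3 rfl (by rw [List.length_append, hlen]; simp)
      rw [List.getElem?_append_right hlen.ge, hlen, Nat.sub_self] at h4
      simp only [List.getElem?_cons_zero, Option.some.injEq] at h4
      exact hy h4.symm

theorem lists_cases (G R : List (Fin 17)) : G <+: R ∨ R <+: G ∨
    ∃ p y y' s s', R = p ++ y :: s ∧ G = p ++ y' :: s' ∧ y ≠ y' := by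
  induction G generalizing R with
  | nil => exact Or.inl (List.nil_prefix)
  | cons a G ih =>
    cases R with
    | nil => exact Or.inr (Or.inl (List.nil_prefix))
    | cons b R =>
      by_cases hab : b = a
      · subst hab
        rcases ih R with h | h | ⟨p, y, y', s, s', h1, h2, h3⟩
        · exact Or.inl (List.cons_prefix_cons.mpr ⟨rfl, h⟩)
        · exact Or.inr (Or.inl (List.cons_prefix_cons.mpr ⟨rfl, h⟩))
        · exact Or.inr (Or.inr ⟨b :: p, y, y', s, s', by rw [h1]; rfl, by rw [h2]; rfl, h3⟩)
      · exact Or.inr (Or.inr ⟨[], b, a, R, G, rfl, rfl, hab⟩)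

theorem flat_split {l p' s : List (Fin 17)} {y' : Fin 17} (h : l.flatMap g = p' ++ y' :: s) :
    ∃ p x q r, l = p ++ x :: q ∧ r < 5 ∧ p'.length = 5 * p.length + r ∧ (g x)[r]? = some y' := by
  induction l generalizing p' with
  | nil =>
    exfalso
    have := congrArg List.length h
    simp at this
  | cons a l ih =>
    rw [List.flatMap_cons] at h
    by_cases hl : p'.length < 5
    · refine ⟨[], a, l, p'.length, rfl, hl, by simp, ?_⟩
      have h1 : (g a ++ l.flatMap g)[p'.length]? = some y' := by
        rw [h, List.getElem?_append_right le_rfl, Nat.sub_self]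
        rfl
      rwa [List.getElem?_append_left (by rw [g_len]; exact hl)] at h1
    · rw [List.append_eq_append_iff] at h
      rcases h with ⟨c, h1, h2⟩ | ⟨c, h1, h2⟩
      · obtain ⟨p, x, q, r, e1, e2, e3, e4⟩ := ih h2
        refine ⟨a :: p, x, q, r, by rw [e1]; rfl, e2, ?_, e4⟩
        rw [h1, List.length_append, g_len, e3, List.length_cons]
        omega
      · have h3 := congrArg List.length h1
        rw [List.length_append, g_len] at h3
        have hc : c = [] := List.eq_nil_of_length_eq_zero (by omega)
        subst hc
        rw [List.nil_append] at h2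
        obtain ⟨p, x, q, r, e1, e2, e3, e4⟩ := ih (p' := []) (by rw [← h2]; rfl)
        refine ⟨a :: p, x, q, r, by rw [e1]; rfl, e2, ?_, e4⟩
        simp only [List.length_nil] at e3 h3
        rw [List.length_cons]
        omega

theorem rw_last (n : ℕ) : ∃ α, rw n = α ++ 16 :: (bl n ++ [16]) := by
  cases n with
  | zero => exact ⟨[], rfl⟩
  | succ n =>
    refine ⟨16 :: (FF 0 n ++ bl n), ?_⟩
    rw [rw_eq, FF_last, FF_last, Nat.zero_add, Nat.zero_add]
    simp

theorem rw_len (n : ℕ) : n ≤ (rw n).length := by
  induction n with
  | zero => exact Nat.zero_le _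
  | succ n ih =>
    rw [rw, List.length_append]
    simp only [List.length_append, List.length_cons, List.length_nil]
    omega

theorem t_ALL : S_ALL := by
  intro z hz
  have hz1 : [16, 0, 16] <+: z := by
    by_contra h
    exact hz (Or.inl (Or.inl (Or.inl h)))
  have hz2 : [16] <:+ z := by
    by_contra h
    exact hz (Or.inl (Or.inl (Or.inr h)))
  have hz3 : ¬ Mis1 z := fun h => hz (Or.inl (Or.inr h))
  have hz4 : ¬ Mis2 z := fun h => hz (Or.inr h)
  by_contra hcon
  push Not at hcon
  have key : ∀ n, rw n <+: z := by
    intro n
    induction n with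
    | zero => exact hz1
    | succ n ih =>
      obtain ⟨rest, hrest⟩ := ih
      have hne : rest ≠ [] := by
        rintro rfl
        rw [List.append_nil] at hrest
        exact hcon n hrest.symm
      suffices hG : (bl (n + 1) ++ [16]) <+: rest by
        obtain ⟨t, ht⟩ := hG
        refine ⟨t, ?_⟩
        rw [← hrest, ← ht, rw]
        simp
      rcases lists_cases (bl (n + 1) ++ [16]) rest with h | h | ⟨p', y, y', s, s', h1, h2, h3⟩
      · exact h
      · rcases List.eq_nil_or_concat rest with h0 | ⟨r0, c, h0⟩
        · exact absurd h0 hne
        · rw [List.concat_eq_append] at h0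
          have hc : c = 16 := by
            obtain ⟨z0, hz0⟩ := hz2
            rw [← hrest, h0, ← List.append_assoc] at hz0
            have := (List.append_inj' hz0 rfl).2
            simpa using this.symm
          subst hc
          obtain ⟨t, ht⟩ := h
          rcases List.eq_nil_or_concat t with ht0 | ⟨t0, e, ht0⟩
          · rw [ht0, List.append_nil] at ht
            rw [ht]
          · exfalso
            rw [List.concat_eq_append] at ht0
            rw [ht0, h0, ← List.append_assoc] at ht
            have h5 := (List.append_inj' ht rfl).1
            apply not16 (n + 1)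
            rw [← h5]
            simp
      · exfalso
        obtain ⟨α, hα⟩ := rw_last n
        rcases List.eq_nil_or_concat s' with hs | ⟨s'', e, hs⟩
        · rw [hs] at h2
          have h4 := List.append_inj' h2 rfl
          have hy' : y' = 16 := by simpa using h4.2.symm
          apply hz4
          refine ⟨α, bl n, p', y, s, ?_, bl_ne n, ?_, ?_⟩
          · rw [← hrest, h1, hα]
            simp
          · rw [← h4.1, bl_len, bl_len, pow_succ]
            ring
          · rw [← hy']
            exact h3
        · rw [hs, List.concat_eq_append] at h2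
          have h2' : bl (n + 1) ++ [16] = (p' ++ y' :: s'') ++ [e] := by rw [h2]; simp
          have h4 := (List.append_inj' h2' rfl).1
          rw [bl] at h4
          obtain ⟨p, x, q, r, e1, e2, e3, e4⟩ := flat_split h4
          have hmem : ∀ b ∈ p ++ x :: q, b ≠ 16 := by
            rw [← e1]
            exact bl_ne n
          apply hz3
          refine ⟨α, p, x, q, p', y, s, r, ?_, fun b hb => hmem b (by simp [hb]),
            hmem x (by simp), fun b hb => hmem b (by simp [hb]), e2, e3, ?_⟩
          · rw [← hrest, h1, hα, e1]
            simp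
          · rw [e4]
            intro h5
            exact h3 (Option.some.inj h5).symm
  have h1 := (key (z.length + 1)).length_le
  have h2 := rw_len (z.length + 1)
  omega

/-! ### Abelian squares -/

theorem asf_bl (h : ∀ n, ASF (wd n)) (n : ℕ) : ASF (bl n) := by
  intro u x y v he hx hp
  have h1 : wd n = u.map pr ++ x.map pr ++ y.map pr ++ v.map pr := by
    rw [← bl_map, he]
    simp
  exact h n _ _ _ _ h1 (by simpa using hx) (hp.map pr)

theorem last_split {l : List (Fin 17)} (h : (16 : Fin 17) ∈ l) :
    ∃ a b, l = a ++ 16 :: b ∧ (16 : Fin 17) ∉ b := by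
  have h1 : (16 : Fin 17) ∈ l.reverse := by simpa using h
  obtain ⟨b, a, e1, e2⟩ := List.eq_append_cons_of_mem h1
  refine ⟨a.reverse, b.reverse, ?_, by simpa using e2⟩
  have := congrArg List.reverse e1
  simpa using this

/-- a factor without separator before a separator-free block -/
theorem prefix_bl {y0 v : List (Fin 17)} {k m : ℕ} (hy : (16 : Fin 17) ∉ y0)
    (h : y0 ++ v = FF k m) : ∀ a ∈ y0, a ∈ bl k := by
  cases m with
  | zero =>
    have h1 : y0 = [] := by
      have := congrArg List.length h
      simp only [FF, List.length_append, List.length_nil] at this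
      exact List.eq_nil_of_length_eq_zero (by omega)
    rw [h1]
    intro a ha
    exact absurd ha (by simp)
  | succ m =>
    have h1 : FF k (m + 1) = bl k ++ 16 :: FF (k + 1) m := rfl
    rw [h1, List.append_eq_append_iff] at h
    rcases h with ⟨c, e1, e2⟩ | ⟨c, e1, e2⟩
    · intro a ha
      rw [e1]
      simp [ha]
    · cases c with
      | nil =>
        rw [List.append_nil] at e1
        intro a ha
        rw [← e1]
        exact ha
      | cons b c =>
        exfalso
        rw [List.cons_append] at e2
        have := (List.cons.inj e2).1
        apply hy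
        rw [e1, this]
        simp

theorem suffix_bl {u x0 : List (Fin 17)} {k : ℕ} (hx : (16 : Fin 17) ∉ x0)
    (h : u ++ x0 ++ [16] = 16 :: FF 0 k) : ∀ a ∈ x0, ∃ k', k = k' + 1 ∧ a ∈ bl k' := by
  intro a ha
  cases k with
  | zero =>
    exfalso
    have h1 := congrArg List.length h
    have h2 := List.length_pos_of_mem ha
    simp only [FF, List.length_append, List.length_cons, List.length_nil] at h1
    omega
  | succ k =>
    refine ⟨k, rfl, ?_⟩
    rw [FF_last, Nat.zero_add] at h
    have h1 : u ++ x0 ++ [16] = (16 :: FF 0 k ++ bl k) ++ [16] := by rw [h]; simp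
    have h2 := (List.append_inj' h1 rfl).1
    rw [List.append_eq_append_iff] at h2
    rcases h2 with ⟨c, e1, e2⟩ | ⟨c, e1, e2⟩
    · -- `16 :: FF 0 k = u ++ c`, `x0 = c ++ bl k`
      have hc : c = [] := by
        rcases List.eq_nil_or_concat c with h3 | ⟨c0, e, h3⟩
        · exact h3
        · exfalso
          rw [List.concat_eq_append] at h3
          have he : e = 16 := by
            cases k with
            | zero =>
              rw [h3, ← List.append_assoc] at e1
              have e1' : [] ++ [(16 : Fin 17)] = u ++ c0 ++ [e] := by simpa [FF] using e1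
              have := (List.append_inj' e1' rfl).2
              simpa using this.symm
            | succ k =>
              rw [FF_last, h3] at e1
              have e1' : (16 :: (FF 0 k ++ bl (0 + k))) ++ [(16 : Fin 17)] = u ++ c0 ++ [e] := by
                rw [List.append_assoc u c0 [e], ← e1]
                simp
              have := (List.append_inj' e1' rfl).2
              simpa using this.symm
          apply hx
          rw [e2, h3, he]
          simp
      rw [e2, hc, List.nil_append] at ha
      exact ha
    · rw [e2]
      simp [ha]

theorem filter_eq_nil_of {l : List (Fin 17)} {c : ℕ} (h : ∀ a ∈ l, a.val / 8 ≠ c) :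
    l.filter (fun a => decide (a.val / 8 = c)) = [] := by
  rw [List.filter_eq_nil_iff]
  intro a ha
  simpa using h a ha

theorem filter_eq_self_of {l : List (Fin 17)} {c : ℕ} (h : ∀ a ∈ l, a.val / 8 = c) :
    l.filter (fun a => decide (a.val / 8 = c)) = l := by
  rw [List.filter_eq_self]
  intro a ha
  simpa using h a ha

theorem t_RASF : S_RASF := by
  intro hwd n u x y v he hx hp
  have hbl := asf_bl hwd
  have he' : rw n = u ++ (x ++ (y ++ v)) := by rw [he]; simp
  by_cases hmem : (16 : Fin 17) ∈ x
  · have hmemy : (16 : Fin 17) ∈ y := hp.mem_iff.mp hmem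
    obtain ⟨x0, t, hx0, ht⟩ := last_split hmem
    obtain ⟨t', y0, hy0, ht'⟩ := List.eq_append_cons_of_mem hmemy
    have hv : (16 : Fin 17) ∉ t ++ t' := by
      rw [List.mem_append]
      rintro (h | h)
      · exact ht h
      · exact ht' h
    obtain ⟨k, hk, e1, e2, e3⟩ := claim_rw (n := n) (a := u ++ x0) (v := t ++ t')
      (rest := y0 ++ v) hv (by rw [he', hx0, hy0]; simp)
    have hlk : (bl k).length = 5 ^ k := bl_len k
    have hcol := bl_col k
    by_cases hy16 : (16 : Fin 17) ∈ y0
    · -- `y` contains the whole block `k + 1`
      obtain ⟨y1, y2, hy1, hy1'⟩ := List.eq_append_cons_of_mem hy16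
      have hlen : 5 ^ (k + 1) + 2 ≤ y.length := by
        have e3' : FF (k + 1) (n + 1 - k - 1) = [] ++ (y1 ++ 16 :: (y2 ++ v)) := by
          rw [← e3, hy1]
          simp
        obtain ⟨j, -, f1, f2, -⟩ := claim _ _ [] y1 (y2 ++ v) (Or.inl rfl) hy1' e3'
        have hj : j = 0 := by
          cases j with
          | zero => rfl
          | succ j =>
            exfalso
            have := congrArg List.length f1
            simp [FF] at this
        rw [hj, Nat.add_zero] at f2
        rw [hy0, hy1, f2]
        simp only [List.length_append, List.length_cons, bl_len]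
        omega
      have hlx : x.length ≤ 1 + (FF 0 k).length + 5 ^ k := by
        have h1 := congrArg List.length e1
        have h2 := congrArg List.length e2
        rw [bl_len] at h2
        simp only [List.length_append, List.length_cons, List.length_nil] at h1 h2
        rw [hx0, List.length_append, List.length_cons]
        omega
      have hxy := hp.length_eq
      have h3 := FF_len k
      have h4 : 5 ^ (k + 1) = 5 * 5 ^ k := by rw [pow_succ]; ring
      have h5 : 0 < 5 ^ k := by positivity
      omega
    · -- one separator in each of the two words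
      have hx16 : (16 : Fin 17) ∉ x0 := by
        have h1 := hp.count_eq (16 : Fin 17)
        rw [hx0, hy0, List.count_append, List.count_append, List.count_cons_self,
          List.count_cons_self, List.count_eq_zero_of_not_mem ht,
          List.count_eq_zero_of_not_mem ht', List.count_eq_zero_of_not_mem hy16] at h1
        intro hcon
        have h2 := List.count_pos_iff.mpr hcon
        omega
      set c := k % 2 with hc
      have hfx0 : x0.filter (fun a => decide (a.val / 8 = c)) = [] := by
        apply filter_eq_nil_of
        intro a ha
        obtain ⟨k', hk', hak⟩ := suffix_bl hx16 e1 a ha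
        rw [bl_col k' a hak, hc, hk']
        omega
      have hfy0 : y0.filter (fun a => decide (a.val / 8 = c)) = [] := by
        apply filter_eq_nil_of
        intro a ha
        have := prefix_bl hy16 e3 a ha
        rw [bl_col (k + 1) a this, hc]
        omega
      have hft : t.filter (fun a => decide (a.val / 8 = c)) = t := by
        apply filter_eq_self_of
        intro a ha
        exact hcol a (by rw [← e2]; simp [ha])
      have hft' : t'.filter (fun a => decide (a.val / 8 = c)) = t' := by
        apply filter_eq_self_of
        intro a ha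
        exact hcol a (by rw [← e2]; simp [ha])
      have h16 : decide (((16 : Fin 17) : Fin 17).val / 8 = c) = false := by
        rw [decide_eq_false_iff_not]
        have : (16 : Fin 17).val / 8 = 2 := by decide
        rw [this, hc]
        omega
      have hperm : List.Perm t t' := by
        have h1 := hp.filter (fun a : Fin 17 => decide (a.val / 8 = c))
        rw [hx0, hy0, List.filter_append, List.filter_append, List.filter_cons, List.filter_cons,
          h16, hfx0, hfy0, hft, hft'] at h1
        simpa using h1
      have htne : t ≠ [] := by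
        intro h0
        have h1 : t' = [] := by
          rw [h0] at hperm
          exact hperm.symm.eq_nil
        rw [h0, h1] at e2
        have h2 := congrArg List.length e2
        rw [bl_len] at h2
        have h3 : 0 < 5 ^ k := by positivity
        simp only [List.append_nil, List.length_nil] at h2
        omega
      exact hbl k [] t t' [] (by rw [← e2]; simp) htne hperm
  · -- no separator
    have hmemy : (16 : Fin 17) ∉ y := fun h => hmem (hp.mem_iff.mpr h)
    have hu : (16 : Fin 17) ∈ u := by
      cases u with
      | nil =>
        exfalso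
        cases x with
        | nil => exact hx rfl
        | cons b x =>
          rw [rw_eq, List.nil_append, List.cons_append] at he'
          have := (List.cons.inj he').1
          apply hmem
          rw [this]
          simp
      | cons b u =>
        rw [rw_eq, List.cons_append] at he'
        have := (List.cons.inj he').1
        rw [this]
        simp
    have hv : (16 : Fin 17) ∈ v := by
      rcases List.eq_nil_or_concat v with h0 | ⟨v0, e, h0⟩
      · exfalso
        have hyne : y ≠ [] := by
          rintro rfl
          exact hx hp.eq_nil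
        rcases List.eq_nil_or_concat y with h1 | ⟨y0, e, h1⟩
        · exact hyne h1
        · rw [List.concat_eq_append] at h1
          rw [rw_eq, FF_last, h0, h1] at he'
          have he2 : (16 :: (FF 0 n ++ bl (0 + n))) ++ [(16 : Fin 17)] =
              (u ++ (x ++ y0)) ++ [e] := by
            simpa using he'
          have h2 := (List.append_inj' he2 rfl).2
          apply hmemy
          rw [h1]
          have : e = 16 := by simpa using h2.symm
          rw [this]
          simp
      · rw [List.concat_eq_append] at h0
        rw [rw_eq, FF_last, h0] at he'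
        have he2 : (16 :: (FF 0 n ++ bl (0 + n))) ++ [(16 : Fin 17)] =
            (u ++ (x ++ (y ++ v0))) ++ [e] := by
          simpa using he'
        have h2 := (List.append_inj' he2 rfl).2
        have : e = 16 := by simpa using h2.symm
        rw [h0, this]
        simp
    obtain ⟨u0, u1, hu0, hu1⟩ := last_split hu
    obtain ⟨v0, v1, hv0, hv1⟩ := List.eq_append_cons_of_mem hv
    have hno : (16 : Fin 17) ∉ u1 ++ (x ++ (y ++ v0)) := by
      simp only [List.mem_append]
      rintro (h | h | h | h)
      · exact hu1 h
      · exact hmem h
      · exact hmemy h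
      · exact hv1 h
    obtain ⟨k, -, -, e2, -⟩ := claim_rw (n := n) (a := u0) (v := u1 ++ (x ++ (y ++ v0)))
      (rest := v1) hno (by rw [he', hu0, hv0]; simp)
    exact hbl k u1 x y v0 (by rw [← e2]; simp) hx hp

end Pool.Agent.Y592.AS
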